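import Pool.Agent.helper3.FT.Defs

set_option autoImplicit false

namespace Pool.Agent.helper3.FT

open Finset

private theorem sq_two (x y : ℤ) (h : x ^ 2 = 2 * y ^ 2) : y = 0 := by
  by_contra hy
  have h1 : ((x : ℝ) / y) ^ 2 = 2 := by
    have hy' : (y : ℝ) ≠ 0 := by exact_mod_cast hy
    rw [div_pow, div_eq_iff (pow_ne_zero 2 hy')]
    exact_mod_cast h
  have h2 : Real.sqrt 2 = |(x : ℝ) / y| := by
    rw [← h1, Real.sqrt_sq_eq_abs]
  apply irrational_sqrt_two
  refine ⟨|(x : ℚ) / y|, ?_⟩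
  rw [h2]
  push_cast
  rfl

/-- homogeneity: divide by the gcd -/
private theorem coprime_of (A A' B X n k : ℤ) (hk : n ≠ 0 ∨ k ≠ 0) (h1 : F1 A A' B n k = 0)
    (h2 : F2 A' B X n k = 0) :
    ∃ n k : ℤ, IsCoprime n k ∧ F1 A A' B n k = 0 ∧ F2 A' B X n k = 0 := by
  have hg : 0 < Int.gcd n k := Int.gcd_pos_iff.2 hk
  obtain ⟨n', k', hc, hn', hk'⟩ := Int.exists_gcd_one hg
  refine ⟨n', k', Int.isCoprime_iff_gcd_eq_one.2 hc, ?_, ?_⟩
  · have hg' : ((Int.gcd n k : ℤ)) ^ 3 ≠ 0 := pow_ne_zero 3 (by exact_mod_cast hg.ne')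
    apply mul_left_cancel₀ hg'
    rw [mul_zero, ← h1]
    generalize (Int.gcd n k : ℤ) = g at *
    rw [hn', hk']
    unfold F1
    ring
  · have hg' : ((Int.gcd n k : ℤ)) ^ 3 ≠ 0 := pow_ne_zero 3 (by exact_mod_cast hg.ne')
    apply mul_left_cancel₀ hg'
    rw [mul_zero, ← h2]
    generalize (Int.gcd n k : ℤ) = g at *
    rw [hn', hk']
    unfold F2
    ring

/-- P5a -/
theorem Rf_zero_cases (A A' B X : ℤ) (h : Rf A A' B X = 0) :
    (∃ n k : ℤ, IsCoprime n k ∧ F1 A A' B n k = 0 ∧ F2 A' B X n k = 0) ∨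
      (A' * B = 25 * A * X ∧ (B = 0 ∨ 5 * A * B ^ 2 = A' ^ 3)) := by
  unfold Rf at h
  by_cases hP : A' * B + 25 * (A * X) = 0
  · -- the degenerate case
    right
    have hp : A' * B = -25 * (A * X) := by linarith
    have e1 : A * B ^ 5 + A' ^ 5 * X = 6250 * (A * X) ^ 3 := by
      have : (A' * B) ^ 3 + 75 * (A' * B) ^ 2 * (A * X) - 625 * (A' * B) * (A * X) ^ 2
          + 3125 * (A * X) ^ 3 = 50000 * (A * X) ^ 3 := by
        rw [hp]; ring
      linarith
    have e2 : (A * B ^ 5) * (A' ^ 5 * X) = -9765625 * (A * X) ^ 6 := by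
      calc (A * B ^ 5) * (A' ^ 5 * X) = (A * X) * (A' * B) ^ 5 := by ring
        _ = -9765625 * (A * X) ^ 6 := by rw [hp]; ring
    have e3 : (A * B ^ 5 - A' ^ 5 * X) ^ 2 = 2 * (6250 * (A * X) ^ 3) ^ 2 := by
      calc (A * B ^ 5 - A' ^ 5 * X) ^ 2
          = (A * B ^ 5 + A' ^ 5 * X) ^ 2 - 4 * ((A * B ^ 5) * (A' ^ 5 * X)) := by ring
        _ = 2 * (6250 * (A * X) ^ 3) ^ 2 := by rw [e1, e2]; ring
    have e4 : A * X = 0 := by
      have := sq_two _ _ e3
      have h3 : (A * X) ^ 3 = 0 := by omega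
      exact pow_eq_zero_iff (by norm_num) |>.1 h3
    have e5 : A' * B = 0 := by rw [hp, e4]; ring
    refine ⟨by rw [e5]; linarith, ?_⟩
    by_cases hB : B = 0
    · exact Or.inl hB
    · right
      have hA' : A' = 0 := by
        rcases mul_eq_zero.1 e5 with h0 | h0
        · exact h0
        · exact absurd h0 hB
      rw [e4, hA'] at e1
      have hA : A * B ^ 5 = 0 := by linarith
      rcases mul_eq_zero.1 hA with h0 | h0
      · rw [h0, hA']; ring
      · exact absurd (pow_eq_zero_iff (by norm_num) |>.1 h0) hB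
  · obtain ⟨P, hPdef⟩ : ∃ P, P = A' * B + 25 * (A * X) := ⟨_, rfl⟩
    rw [← hPdef] at hP
    obtain ⟨m1, hm1⟩ : ∃ m1, m1 = 20 * A * B ^ 3 - 2 * A' ^ 2 * P := ⟨_, rfl⟩
    obtain ⟨m2, hm2⟩ : ∃ m2, m2 = (A' * B - 25 * (A * X)) ^ 2 := ⟨_, rfl⟩
    obtain ⟨m3, hm3⟩ : ∃ m3, m3 = -20 * A' ^ 3 * X + 2 * B ^ 2 * P := ⟨_, rfl⟩
    have hres : m2 ^ 2 = m1 * m3 := by
      have : m2 ^ 2 - m1 * m3 = 5 * P * ((A' * B) ^ 3 + 75 * (A' * B) ^ 2 * (A * X)
          - 625 * (A' * B) * (A * X) ^ 2 + 3125 * (A * X) ^ 3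
          - 8 * (A * B ^ 5 + A' ^ 5 * X)) := by
        rw [hm1, hm2, hm3, hPdef]; ring
      rw [h] at this
      linarith
    by_cases hm : m1 = 0
    · right
      have hm2' : m2 = 0 := by
        rw [hm, zero_mul] at hres
        exact pow_eq_zero_iff (by norm_num) |>.1 hres
      have e1 : A' * B - 25 * (A * X) = 0 := by
        rw [hm2'] at hm2
        exact pow_eq_zero_iff (by norm_num) |>.1 hm2.symm
      refine ⟨by linarith, ?_⟩
      have e2 : P = 2 * (A' * B) := by rw [hPdef]; linarith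
      rw [hm, e2] at hm1
      have e3 : B * (5 * A * B ^ 2 - A' ^ 3) = 0 := by
        have : 4 * (B * (5 * A * B ^ 2 - A' ^ 3)) = 0 := by
          rw [hm1]; ring
        linarith
      rcases mul_eq_zero.1 e3 with h0 | h0
      · exact Or.inl h0
      · right; linarith
    · left
      apply coprime_of A A' B X (-m2) m1 (Or.inr hm)
      · have E1 : 10 * A * B * (-m2) ^ 2 + 2 * A' ^ 2 * (-m2) * m1 - P * m1 ^ 2 = 0 := by
          have : 10 * A * B * (-m2) ^ 2 + 2 * A' ^ 2 * (-m2) * m1 - P * m1 ^ 2 =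
            10 * A * B * (m2 ^ 2 - m1 * m3)
              + m1 * (10 * A * B * m3 - 2 * A' ^ 2 * m2 - P * m1) := by ring
          rw [this, hres, sub_self, mul_zero, zero_add]
          have h0 : 10 * A * B * m3 - 2 * A' ^ 2 * m2 - P * m1 = 0 := by
            rw [hm1, hm2, hm3, hPdef]; ring
          rw [h0, mul_zero]
        have E2 : P * (-m2) ^ 2 + 2 * B ^ 2 * (-m2) * m1 - 10 * A' * X * m1 ^ 2 = 0 := by
          have : P * (-m2) ^ 2 + 2 * B ^ 2 * (-m2) * m1 - 10 * A' * X * m1 ^ 2 =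
            P * (m2 ^ 2 - m1 * m3)
              + m1 * (P * m3 - 2 * B ^ 2 * m2 - 10 * A' * X * m1) := by ring
          rw [this, hres, sub_self, mul_zero, zero_add]
          have h0 : P * m3 - 2 * B ^ 2 * m2 - 10 * A' * X * m1 = 0 := by
            rw [hm1, hm2, hm3, hPdef]; ring
          rw [h0, mul_zero]
        apply mul_left_cancel₀ hP
        rw [mul_zero]
        have i1 : A' * F1 A A' B (-m2) m1 - 5 * A * F2 A' B X (-m2) m1 = 0 := by
          have : A' * F1 A A' B (-m2) m1 - 5 * A * F2 A' B X (-m2) m1 =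
            -m1 * (10 * A * B * (-m2) ^ 2 + 2 * A' ^ 2 * (-m2) * m1 - P * m1 ^ 2) := by
            unfold F1 F2; rw [hPdef]; ring
          rw [this, E1, mul_zero]
        have i2 : 5 * X * F1 A A' B (-m2) m1 + B * F2 A' B X (-m2) m1 = 0 := by
          have : 5 * X * F1 A A' B (-m2) m1 + B * F2 A' B X (-m2) m1 =
            (-m2) * (P * (-m2) ^ 2 + 2 * B ^ 2 * (-m2) * m1 - 10 * A' * X * m1 ^ 2) := by
            unfold F1 F2; rw [hPdef]; ring
          rw [this, E2, mul_zero]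
        have : P * F1 A A' B (-m2) m1 = B * (A' * F1 A A' B (-m2) m1 - 5 * A * F2 A' B X (-m2) m1)
            + 5 * A * (5 * X * F1 A A' B (-m2) m1 + B * F2 A' B X (-m2) m1) := by
          rw [hPdef]; ring
        rw [this, i1, i2]; ring
      · have E1 : 10 * A * B * (-m2) ^ 2 + 2 * A' ^ 2 * (-m2) * m1 - P * m1 ^ 2 = 0 := by
          have : 10 * A * B * (-m2) ^ 2 + 2 * A' ^ 2 * (-m2) * m1 - P * m1 ^ 2 =
            10 * A * B * (m2 ^ 2 - m1 * m3)
              + m1 * (10 * A * B * m3 - 2 * A' ^ 2 * m2 - P * m1) := by ring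
          rw [this, hres, sub_self, mul_zero, zero_add]
          have h0 : 10 * A * B * m3 - 2 * A' ^ 2 * m2 - P * m1 = 0 := by
            rw [hm1, hm2, hm3, hPdef]; ring
          rw [h0, mul_zero]
        have E2 : P * (-m2) ^ 2 + 2 * B ^ 2 * (-m2) * m1 - 10 * A' * X * m1 ^ 2 = 0 := by
          have : P * (-m2) ^ 2 + 2 * B ^ 2 * (-m2) * m1 - 10 * A' * X * m1 ^ 2 =
            P * (m2 ^ 2 - m1 * m3)
              + m1 * (P * m3 - 2 * B ^ 2 * m2 - 10 * A' * X * m1) := by ring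
          rw [this, hres, sub_self, mul_zero, zero_add]
          have h0 : P * m3 - 2 * B ^ 2 * m2 - 10 * A' * X * m1 = 0 := by
            rw [hm1, hm2, hm3, hPdef]; ring
          rw [h0, mul_zero]
        apply mul_left_cancel₀ hP
        rw [mul_zero]
        have i1 : A' * F1 A A' B (-m2) m1 - 5 * A * F2 A' B X (-m2) m1 = 0 := by
          have : A' * F1 A A' B (-m2) m1 - 5 * A * F2 A' B X (-m2) m1 =
            -m1 * (10 * A * B * (-m2) ^ 2 + 2 * A' ^ 2 * (-m2) * m1 - P * m1 ^ 2) := by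
            unfold F1 F2; rw [hPdef]; ring
          rw [this, E1, mul_zero]
        have i2 : 5 * X * F1 A A' B (-m2) m1 + B * F2 A' B X (-m2) m1 = 0 := by
          have : 5 * X * F1 A A' B (-m2) m1 + B * F2 A' B X (-m2) m1 =
            (-m2) * (P * (-m2) ^ 2 + 2 * B ^ 2 * (-m2) * m1 - 10 * A' * X * m1 ^ 2) := by
            unfold F1 F2; rw [hPdef]; ring
          rw [this, E2, mul_zero]
        have : P * F2 A' B X (-m2) m1 = A' * (5 * X * F1 A A' B (-m2) m1 + B * F2 A' B X (-m2) m1)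
            - 5 * X * (A' * F1 A A' B (-m2) m1 - 5 * A * F2 A' B X (-m2) m1) := by
          rw [hPdef]; ring
        rw [this, i1, i2]; ring

end Pool.Agent.helper3.FT
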