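import Pool.Agent.helper3.FT.Defs

set_option autoImplicit false

namespace Pool.Agent.helper3.FT

open Finset

private theorem param (A A' B X n k : ℤ) (hc : IsCoprime n k) (hn : n ≠ 0) (hk : k ≠ 0)
    (h1 : F1 A A' B n k = 0) (h2 : F2 A' B X n k = 0) :
    ∃ a x : ℤ, 5 * A = k ^ 3 * a ∧ 5 * X = n ^ 3 * x ∧
      5 * A' = k * (x * k ^ 2 + 2 * a * n ^ 2) ∧ 5 * B = n * (2 * x * k ^ 2 - a * n ^ 2) := by
  unfold F1 at h1
  unfold F2 at h2
  have hck3 : IsCoprime (k ^ 3) (n ^ 3) := IsCoprime.pow hc.symm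
  have hkA' : k ∣ A' := by
    have h3 : k ∣ n ^ 3 * A' := ⟨-(2 * B * n ^ 2 - 5 * X * k ^ 2), by linarith⟩
    exact (IsCoprime.pow_right hc.symm).dvd_of_dvd_mul_left h3
  have hnB : n ∣ B := by
    have h3 : n ∣ k ^ 3 * B := ⟨-(5 * A * n ^ 2 - 2 * A' * k ^ 2), by linarith⟩
    exact (IsCoprime.pow_right hc).dvd_of_dvd_mul_left h3
  obtain ⟨A1, hA1⟩ := hkA'
  obtain ⟨B1, hB1⟩ := hnB
  have hk3 : k ^ 3 ∣ 5 * A := by
    have h3 : k ^ 3 ∣ n ^ 3 * (5 * A) := ⟨2 * A1 * n - B, by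
      rw [hA1] at h1; linarith⟩
    exact hck3.dvd_of_dvd_mul_left h3
  have hn3 : n ^ 3 ∣ 5 * X := by
    have h3 : n ^ 3 ∣ k ^ 3 * (5 * X) := ⟨A' + 2 * B1 * k, by
      rw [hB1] at h2; linarith⟩
    exact hck3.symm.dvd_of_dvd_mul_left h3
  obtain ⟨a, ha⟩ := hk3
  obtain ⟨x, hx⟩ := hn3
  refine ⟨a, x, ha, hx, ?_, ?_⟩
  · have e1 : a * n ^ 3 * k = 2 * A' * n - B * k := by
      have hk2 : k ^ 2 ≠ 0 := pow_ne_zero 2 hk
      apply mul_left_cancel₀ hk2
      have : 5 * A * n ^ 3 = k ^ 3 * a * n ^ 3 := by rw [ha]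
      linarith
    have e2 : x * n * k ^ 3 = A' * n + 2 * B * k := by
      have hn2 : n ^ 2 ≠ 0 := pow_ne_zero 2 hn
      apply mul_left_cancel₀ hn2
      have : 5 * X * k ^ 3 = n ^ 3 * x * k ^ 3 := by rw [hx]
      linarith
    apply mul_left_cancel₀ hn
    linarith
  · have e1 : a * n ^ 3 * k = 2 * A' * n - B * k := by
      have hk2 : k ^ 2 ≠ 0 := pow_ne_zero 2 hk
      apply mul_left_cancel₀ hk2
      have : 5 * A * n ^ 3 = k ^ 3 * a * n ^ 3 := by rw [ha]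
      linarith
    have e2 : x * n * k ^ 3 = A' * n + 2 * B * k := by
      have hn2 : n ^ 2 ≠ 0 := pow_ne_zero 2 hn
      apply mul_left_cancel₀ hn2
      have : 5 * X * k ^ 3 = n ^ 3 * x * k ^ 3 := by rw [hx]
      linarith
    apply mul_left_cancel₀ hk
    linarith

private noncomputable abbrev I (L : ℕ) : Finset ℤ := Icc (-(L : ℤ)) L

private theorem card_I (L : ℕ) : (I L).card = 2 * L + 1 := by
  unfold I
  rw [Int.card_Icc]
  omega

/-- parametrised vector -/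
private noncomputable def vec (n k : ℤ) (p : ℤ × ℤ) : ℤ × ℤ × ℤ × ℤ :=
  (k ^ 3 * p.1 / 5, k * (p.2 * k ^ 2 + 2 * p.1 * n ^ 2) / 5,
    n * (2 * p.2 * k ^ 2 - p.1 * n ^ 2) / 5, n ^ 3 * p.2 / 5)

open Classical in
private noncomputable def SK (L : ℕ) : Finset (ℤ × ℤ × ℤ × ℤ) :=
  (I L ×ˢ I L ×ˢ I L ×ˢ I L).filter
    (fun v => ∃ n k : ℤ, IsCoprime n k ∧ n ≠ 0 ∧ k ≠ 0 ∧ |n| ≤ |k| ∧
      F1 v.1 v.2.1 v.2.2.1 n k = 0 ∧ F2 v.2.1 v.2.2.1 v.2.2.2 n k = 0)

private noncomputable def cover (L : ℕ) : Finset (ℤ × ℤ × ℤ × ℤ) :=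
  ((Ioo 0 (15 * L + 1)).filter (fun k => k ^ 3 ≤ 15 * L)).biUnion (fun k =>
    (I k).biUnion (fun n => (I (15 * L / k ^ 3) ×ˢ I (15 * L / k ^ 3)).image (vec n (k : ℤ))))

private theorem SK_sub (L : ℕ) : SK L ⊆ insert (0, 0, 0, 0) (cover L) := by
  classical
  rintro ⟨A, A', B, X⟩ hv
  unfold SK at hv
  simp only [mem_filter, mem_product, mem_Icc] at hv
  obtain ⟨⟨⟨hA1, hA2⟩, ⟨hA1', hA2'⟩, ⟨hB1, hB2⟩, ⟨hX1, hX2⟩⟩, n0, k0, hc0, hn0, hk0, hnk0, h10,
    h20⟩ := hv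
  -- make `k` positive
  obtain ⟨n, k, hc, hn, hkpos, hnk, h1, h2⟩ : ∃ (n : ℤ) (k : ℕ), IsCoprime n (k : ℤ) ∧ n ≠ 0 ∧
      0 < k ∧ |n| ≤ (k : ℤ) ∧ F1 A A' B n k = 0 ∧ F2 A' B X n k = 0 := by
    rcases lt_or_gt_of_ne hk0 with hneg | hpos
    · refine ⟨-n0, k0.natAbs, ?_, neg_ne_zero.2 hn0, Int.natAbs_pos.2 hk0, ?_, ?_, ?_⟩
      · rw [Int.ofNat_natAbs_of_nonpos hneg.le]
        exact (IsCoprime.neg_neg_iff n0 k0).2 hc0
      · rw [abs_neg, Int.natCast_natAbs]; exact hnk0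
      · rw [Int.ofNat_natAbs_of_nonpos hneg.le]
        have : F1 A A' B (-n0) (-k0) = - F1 A A' B n0 k0 := by unfold F1; ring
        rw [this, h10, neg_zero]
      · rw [Int.ofNat_natAbs_of_nonpos hneg.le]
        have : F2 A' B X (-n0) (-k0) = - F2 A' B X n0 k0 := by unfold F2; ring
        rw [this, h20, neg_zero]
    · have e : ((k0.natAbs : ℕ) : ℤ) = k0 := Int.natAbs_of_nonneg hpos.le
      refine ⟨n0, k0.natAbs, ?_, hn0, Int.natAbs_pos.2 hk0, ?_, ?_, ?_⟩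
      · rw [e]; exact hc0
      · rw [Int.natCast_natAbs]; exact hnk0
      · rw [e]; exact h10
      · rw [e]; exact h20
  have hkz : (k : ℤ) ≠ 0 := by exact_mod_cast hkpos.ne'
  have hkz1 : (1 : ℤ) ≤ (k : ℤ) := by exact_mod_cast hkpos
  obtain ⟨a, x, ea, ex, eA', eB⟩ := param A A' B X n k hc hn hkz h1 h2
  have hk3 : (0 : ℤ) < (k : ℤ) ^ 3 := by positivity
  -- bounds
  have ba : (k : ℤ) ^ 3 * |a| ≤ 5 * L := by
    have : (k : ℤ) ^ 3 * |a| = |5 * A| := by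
      rw [ea, abs_mul, abs_of_pos hk3]
    rw [this, abs_le]; constructor <;> linarith
  have bx : (k : ℤ) ^ 3 * |x| ≤ 15 * L := by
    have e1 : (k : ℤ) ^ 3 * x = 5 * A' - 2 * a * n ^ 2 * k := by
      rw [eA']; ring
    have e2 : (k : ℤ) ^ 3 * |x| = |5 * A' - 2 * a * n ^ 2 * k| := by
      rw [← e1, abs_mul, abs_of_pos hk3]
    have e3 : |5 * A' - 2 * a * n ^ 2 * k| ≤ |5 * A'| + |2 * a * n ^ 2 * k| := abs_sub _ _
    have e4 : |5 * A'| ≤ 5 * L := by
      rw [abs_le]; constructor <;> linarith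
    have e5 : |2 * a * n ^ 2 * k| ≤ 2 * ((k : ℤ) ^ 3 * |a|) := by
      have : |2 * a * n ^ 2 * k| = 2 * |a| * |n| ^ 2 * k := by
        rw [abs_mul, abs_mul, abs_mul, abs_pow, abs_of_nonneg (by norm_num : (0:ℤ) ≤ 2),
          abs_of_nonneg (by positivity : (0:ℤ) ≤ (k : ℤ))]
      rw [this]
      have h3 : |n| ^ 2 ≤ (k : ℤ) ^ 2 := by
        apply pow_le_pow_left₀ (abs_nonneg n) hnk
      have h4 : 2 * |a| * |n| ^ 2 * k ≤ 2 * |a| * (k : ℤ) ^ 2 * k := by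
        apply mul_le_mul_of_nonneg_right _ (by positivity)
        apply mul_le_mul_of_nonneg_left h3 (by positivity)
      calc 2 * |a| * |n| ^ 2 * k ≤ 2 * |a| * (k : ℤ) ^ 2 * k := h4
        _ = 2 * ((k : ℤ) ^ 3 * |a|) := by ring
    linarith
  by_cases h0 : a = 0 ∧ x = 0
  · rw [mem_insert]
    left
    obtain ⟨ha, hx⟩ := h0
    rw [ha] at ea eA' eB
    rw [hx] at ex eA' eB
    have i1 : A = 0 := by linarith
    have i2 : X = 0 := by linarith
    have i3 : A' = 0 := by linarith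
    have i4 : B = 0 := by linarith
    rw [i1, i2, i3, i4]
  · rw [mem_insert]
    right
    have hk15 : k ^ 3 ≤ 15 * L := by
      have hz : (k : ℤ) ^ 3 ≤ 15 * L := by
        by_cases ha : a = 0
        · have hx : x ≠ 0 := fun hx => h0 ⟨ha, hx⟩
          have : 1 ≤ |x| := Int.one_le_abs hx
          nlinarith
        · have : 1 ≤ |a| := Int.one_le_abs ha
          nlinarith
      exact_mod_cast hz
    have hba : |a| ≤ ((15 * L / k ^ 3 : ℕ) : ℤ) := by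
      have h5 : (|a|.toNat) ≤ 15 * L / k ^ 3 := by
        rw [Nat.le_div_iff_mul_le (by positivity)]
        zify
        rw [Int.toNat_of_nonneg (abs_nonneg a)]
        nlinarith
      have h6 : ((|a|.toNat : ℕ) : ℤ) = |a| := Int.toNat_of_nonneg (abs_nonneg a)
      rw [← h6]; exact_mod_cast h5
    have hbx : |x| ≤ ((15 * L / k ^ 3 : ℕ) : ℤ) := by
      have h5 : (|x|.toNat) ≤ 15 * L / k ^ 3 := by
        rw [Nat.le_div_iff_mul_le (by positivity)]
        zify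
        rw [Int.toNat_of_nonneg (abs_nonneg x)]
        nlinarith
      have h6 : ((|x|.toNat : ℕ) : ℤ) = |x| := Int.toNat_of_nonneg (abs_nonneg x)
      rw [← h6]; exact_mod_cast h5
    unfold cover
    rw [mem_biUnion]
    refine ⟨k, ?_, ?_⟩
    · rw [mem_filter, mem_Ioo]
      refine ⟨⟨hkpos, ?_⟩, hk15⟩
      have : k ≤ k ^ 3 := Nat.le_self_pow (by norm_num) k
      omega
    · rw [mem_biUnion]
      refine ⟨n, ?_, ?_⟩
      · rw [mem_Icc]; exact abs_le.1 hnk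
      · rw [mem_image]
        refine ⟨(a, x), ?_, ?_⟩
        · rw [mem_product, mem_Icc, mem_Icc]
          exact ⟨abs_le.1 hba, abs_le.1 hbx⟩
        · unfold vec
          simp only [Prod.mk.injEq]
          refine ⟨?_, ?_, ?_, ?_⟩
          · rw [← ea]; omega
          · rw [← eA']; omega
          · rw [← eB]; omega
          · rw [← ex]; omega

private theorem cover_card (L : ℕ) (hL : 1 ≤ L) : ((cover L).card : ℝ) ≤ 12150 * (L : ℝ) ^ 2 := by
  classical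
  have h1 : (cover L).card ≤ ∑ k ∈ (Ioo 0 (15 * L + 1)).filter (fun k => k ^ 3 ≤ 15 * L),
      (2 * k + 1) * (2 * (15 * L / k ^ 3) + 1) ^ 2 := by
    unfold cover
    refine le_trans card_biUnion_le (sum_le_sum fun k _ => ?_)
    refine le_trans card_biUnion_le ?_
    refine le_trans (sum_le_sum (g := fun _ => (2 * (15 * L / k ^ 3) + 1) ^ 2) fun n _ => ?_) ?_
    · refine le_trans card_image_le ?_
      rw [card_product, card_I, sq]
    · rw [sum_const, card_I, smul_eq_mul]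
  have h2 : (((∑ k ∈ (Ioo 0 (15 * L + 1)).filter (fun k => k ^ 3 ≤ 15 * L),
      (2 * k + 1) * (2 * (15 * L / k ^ 3) + 1) ^ 2 : ℕ)) : ℝ) ≤
      ∑ k ∈ (Ioo 0 (15 * L + 1)).filter (fun k => k ^ 3 ≤ 15 * L),
        6075 * (L : ℝ) ^ 2 * ((k : ℝ) ^ 2)⁻¹ := by
    push_cast
    apply sum_le_sum
    intro k hk
    rw [mem_filter, mem_Ioo] at hk
    obtain ⟨⟨hk0, -⟩, hk3⟩ := hk
    have hkr : (1 : ℝ) ≤ k := by exact_mod_cast hk0
    have hk3r : (k : ℝ) ^ 3 ≤ 15 * L := by exact_mod_cast hk3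
    have hkp : (0 : ℝ) < (k : ℝ) ^ 3 := by positivity
    have e1 : (((15 * L / k ^ 3 : ℕ)) : ℝ) ≤ 15 * L / (k : ℝ) ^ 3 := by
      have := @Nat.cast_div_le ℝ _ _ _ (15 * L) (k ^ 3)
      push_cast at this
      exact this
    have e2 : (1 : ℝ) ≤ 15 * L / (k : ℝ) ^ 3 := by
      rw [le_div_iff₀ hkp]; linarith
    have e3 : (2 * (((15 * L / k ^ 3 : ℕ)) : ℝ) + 1) ≤ 45 * L / (k : ℝ) ^ 3 := by
      have : 45 * L / (k : ℝ) ^ 3 = 3 * (15 * L / (k : ℝ) ^ 3) := by ring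
      rw [this]; linarith
    have e4 : (2 * (((15 * L / k ^ 3 : ℕ)) : ℝ) + 1) ^ 2 ≤ (45 * L / (k : ℝ) ^ 3) ^ 2 := by
      apply pow_le_pow_left₀ (by positivity) e3
    have e5 : (2 * (k : ℝ) + 1) ≤ 3 * k := by linarith
    calc (2 * (k : ℝ) + 1) * (2 * (((15 * L / k ^ 3 : ℕ)) : ℝ) + 1) ^ 2
        ≤ (3 * k) * (45 * L / (k : ℝ) ^ 3) ^ 2 := by
          apply mul_le_mul e5 e4 (by positivity) (by positivity)
      _ = 6075 * (L : ℝ) ^ 2 * ((k : ℝ) ^ 2)⁻¹ * ((k : ℝ) ^ 3)⁻¹ := by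
          field_simp
          ring
      _ ≤ 6075 * (L : ℝ) ^ 2 * ((k : ℝ) ^ 2)⁻¹ * 1 := by
          apply mul_le_mul_of_nonneg_left _ (by positivity)
          apply inv_le_one_of_one_le₀
          exact one_le_pow₀ hkr
      _ = 6075 * (L : ℝ) ^ 2 * ((k : ℝ) ^ 2)⁻¹ := by ring
  have h3 : ∑ k ∈ (Ioo 0 (15 * L + 1)).filter (fun k => k ^ 3 ≤ 15 * L),
        6075 * (L : ℝ) ^ 2 * ((k : ℝ) ^ 2)⁻¹ ≤
      ∑ k ∈ Ioo 0 (15 * L + 1), 6075 * (L : ℝ) ^ 2 * ((k : ℝ) ^ 2)⁻¹ := by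
    apply sum_le_sum_of_subset_of_nonneg (filter_subset _ _)
    intro i _ _
    positivity
  have h4 : ∑ k ∈ Ioo 0 (15 * L + 1), ((k : ℝ) ^ 2)⁻¹ ≤ 2 := by
    have := @sum_Ioo_inv_sq_le ℝ _ _ _ 0 (15 * L + 1)
    norm_num at this ⊢
    exact this
  rw [← mul_sum, ← mul_sum] at h3
  have h5 : 6075 * (L : ℝ) ^ 2 * ∑ k ∈ Ioo 0 (15 * L + 1), ((k : ℝ) ^ 2)⁻¹ ≤
      6075 * (L : ℝ) ^ 2 * 2 := mul_le_mul_of_nonneg_left h4 (by positivity)
  have h6 : ((cover L).card : ℝ) ≤ ((∑ k ∈ (Ioo 0 (15 * L + 1)).filter (fun k => k ^ 3 ≤ 15 * L),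
      (2 * k + 1) * (2 * (15 * L / k ^ 3) + 1) ^ 2 : ℕ) : ℝ) := by exact_mod_cast h1
  rw [← mul_sum] at h2
  linarith

open Classical in
/-- P5b -/
theorem count_root : ∃ C : ℝ, ∀ L : ℕ, 1 ≤ L →
    (((Icc (-(L : ℤ)) L ×ˢ Icc (-(L : ℤ)) L ×ˢ Icc (-(L : ℤ)) L ×ˢ Icc (-(L : ℤ)) L).filter
      (fun v => ∃ n k : ℤ, IsCoprime n k ∧ F1 v.1 v.2.1 v.2.2.1 n k = 0 ∧
        F2 v.2.1 v.2.2.1 v.2.2.2 n k = 0)).card : ℝ) ≤ C * (L : ℝ) ^ 2 := by
  refine ⟨24320, fun L hL => ?_⟩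
  have hLr : (1 : ℝ) ≤ L := by exact_mod_cast hL
  set S := (Icc (-(L : ℤ)) L ×ˢ Icc (-(L : ℤ)) L ×ˢ Icc (-(L : ℤ)) L ×ˢ Icc (-(L : ℤ)) L).filter
      (fun v => ∃ n k : ℤ, IsCoprime n k ∧ F1 v.1 v.2.1 v.2.2.1 n k = 0 ∧
        F2 v.2.1 v.2.2.1 v.2.2.2 n k = 0) with hS
  let φ : ℤ × ℤ × ℤ × ℤ → ℤ × ℤ × ℤ × ℤ := fun v => (-v.2.2.2, -v.2.2.1, v.2.1, v.1)
  have hsub : S ⊆ ((I L ×ˢ I L).image (fun p : ℤ × ℤ => ((p.1, p.2, 0, 0) : ℤ × ℤ × ℤ × ℤ))) ∪
      (((I L ×ˢ I L).image (fun p : ℤ × ℤ => ((0, 0, p.1, p.2) : ℤ × ℤ × ℤ × ℤ))) ∪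
      (SK L ∪ (SK L).image φ)) := by
    rintro ⟨A, A', B, X⟩ hv
    rw [hS] at hv
    simp only [mem_filter, mem_product, mem_Icc] at hv
    obtain ⟨hbox, n, k, hc, h1, h2⟩ := hv
    simp only [mem_union]
    by_cases hn : n = 0
    · left
      rw [hn] at hc h1 h2
      have hk : k ≠ 0 := by
        rintro rfl
        exact not_isCoprime_zero_zero hc
      unfold F1 at h1
      unfold F2 at h2
      have hB : B = 0 := by
        have : B * k ^ 3 = 0 := by linarith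
        rcases mul_eq_zero.1 this with h0 | h0
        · exact h0
        · exact absurd (pow_eq_zero_iff (by norm_num) |>.1 h0) hk
      have hX : X = 0 := by
        have : X * k ^ 3 = 0 := by linarith
        rcases mul_eq_zero.1 this with h0 | h0
        · exact h0
        · exact absurd (pow_eq_zero_iff (by norm_num) |>.1 h0) hk
      rw [mem_image]
      refine ⟨(A, A'), ?_, by rw [hB, hX]⟩
      rw [mem_product, mem_Icc, mem_Icc]
      exact ⟨hbox.1, hbox.2.1⟩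
    · right
      by_cases hk : k = 0
      · left
        rw [hk] at h1 h2
        unfold F1 at h1
        unfold F2 at h2
        have hA : A = 0 := by
          have : A * n ^ 3 = 0 := by linarith
          rcases mul_eq_zero.1 this with h0 | h0
          · exact h0
          · exact absurd (pow_eq_zero_iff (by norm_num) |>.1 h0) hn
        have hA' : A' = 0 := by
          have : A' * n ^ 3 = 0 := by linarith
          rcases mul_eq_zero.1 this with h0 | h0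
          · exact h0
          · exact absurd (pow_eq_zero_iff (by norm_num) |>.1 h0) hn
        rw [mem_image]
        refine ⟨(B, X), ?_, by rw [hA, hA']⟩
        rw [mem_product, mem_Icc, mem_Icc]
        exact ⟨hbox.2.2.1, hbox.2.2.2⟩
      · right
        by_cases hnk : |n| ≤ |k|
        · left
          unfold SK
          simp only [mem_filter, mem_product, mem_Icc]
          exact ⟨hbox, n, k, hc, hn, hk, hnk, h1, h2⟩
        · right
          rw [mem_image]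
          refine ⟨(X, B, -A', -A), ?_, by simp [φ]⟩
          unfold SK
          simp only [mem_filter, mem_product, mem_Icc]
          refine ⟨⟨hbox.2.2.2, hbox.2.2.1, ⟨by linarith [hbox.2.1.2], by linarith [hbox.2.1.1]⟩,
            ⟨by linarith [hbox.1.2], by linarith [hbox.1.1]⟩⟩, k, n, hc.symm, hk, hn,
            (not_le.1 hnk).le, ?_, ?_⟩
          · have : F1 X B (-A') k n = - F2 A' B X n k := by unfold F1 F2; ring
            rw [this, h2, neg_zero]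
          · have : F2 B (-A') (-A) k n = F1 A A' B n k := by unfold F1 F2; ring
            rw [this, h1]
  have hSK : ((SK L).card : ℝ) ≤ 1 + 12150 * (L : ℝ) ^ 2 := by
    have h1 : (SK L).card ≤ (insert (0, 0, 0, 0) (cover L)).card := card_le_card (SK_sub L)
    have h2 : (insert ((0, 0, 0, 0) : ℤ × ℤ × ℤ × ℤ) (cover L)).card ≤ (cover L).card + 1 :=
      card_insert_le _ _
    have h3 := cover_card L hL
    have h4 : ((SK L).card : ℝ) ≤ (cover L).card + 1 := by exact_mod_cast h1.trans h2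
    linarith
  have hI : ((I L ×ˢ I L).card : ℝ) ≤ 9 * (L : ℝ) ^ 2 := by
    rw [card_product, card_I]
    push_cast
    nlinarith
  have hc1 : (S.card : ℝ) ≤ (I L ×ˢ I L).card + ((I L ×ˢ I L).card + ((SK L).card + (SK L).card)) := by
    have h1 : S.card ≤ (I L ×ˢ I L).card + ((I L ×ˢ I L).card + ((SK L).card + (SK L).card)) := by
      refine le_trans (card_le_card hsub) ?_
      refine le_trans (card_union_le _ _) (add_le_add card_image_le ?_)
      refine le_trans (card_union_le _ _) (add_le_add card_image_le ?_)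
      refine le_trans (card_union_le _ _) (add_le_add le_rfl card_image_le)
    exact_mod_cast h1
  nlinarith

end Pool.Agent.helper3.FT
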