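import Pool.Agent.helper97.FT.P5a
import Pool.Agent.helper97.FT.P5b

set_option autoImplicit false

namespace Pool.Agent.helper3.FT

open Finset

private theorem card_I2 (L : ℕ) (hL : 1 ≤ L) :
    ((Icc (-(L : ℤ)) L ×ˢ Icc (-(L : ℤ)) L).card : ℝ) ≤ 9 * (L : ℝ) ^ 2 := by
  have hLr : (1 : ℝ) ≤ L := by exact_mod_cast hL
  have h : (Icc (-(L : ℤ)) L).card = 2 * L + 1 := by
    rw [Int.card_Icc]; omega
  rw [card_product, h]
  push_cast
  nlinarith

/-- P5c (from P5a, P5b and the count of the second family) -/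
theorem degenerate : ∃ C : ℝ, ∀ L : ℕ, 1 ≤ L →
    (((Icc (-(L : ℤ)) L ×ˢ Icc (-(L : ℤ)) L ×ˢ Icc (-(L : ℤ)) L ×ˢ Icc (-(L : ℤ)) L).filter
      (fun v => Rf v.1 v.2.1 v.2.2.1 v.2.2.2 = 0)).card : ℝ) ≤ C * (L : ℝ) ^ 2 := by
  classical
  obtain ⟨C, hC⟩ := count_root
  refine ⟨C + 36, fun L hL => ?_⟩
  have h1 := hC L hL
  have h2 := card_I2 L hL
  set bx := Icc (-(L : ℤ)) L ×ˢ Icc (-(L : ℤ)) L ×ˢ Icc (-(L : ℤ)) L ×ˢ Icc (-(L : ℤ)) L with hbx
  set R := bx.filter (fun v => ∃ n k : ℤ, IsCoprime n k ∧ F1 v.1 v.2.1 v.2.2.1 n k = 0 ∧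
        F2 v.2.1 v.2.2.1 v.2.2.2 n k = 0) with hR
  set J := Icc (-(L : ℤ)) L ×ˢ Icc (-(L : ℤ)) L with hJ
  set T := bx.filter (fun v => v.1 ≠ 0 ∧ v.2.2.1 ≠ 0 ∧ v.2.1 * v.2.2.1 = 25 * v.1 * v.2.2.2 ∧
    5 * v.1 * v.2.2.1 ^ 2 = v.2.1 ^ 3) with hT
  have hTJ : T.card ≤ J.card := by
    apply card_le_card_of_injOn (fun v => (v.2.1, v.2.2.1))
    · rintro ⟨A, A', B, X⟩ hv
      rw [hT] at hv
      simp only [hbx, hJ, coe_filter, mem_product, mem_Icc, Set.mem_ofPred_eq] at hv
      simp only [hJ, coe_product, Set.mem_prod, coe_Icc, Set.mem_Icc]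
      exact ⟨hv.1.2.1, hv.1.2.2.1⟩
    · rintro ⟨A, A', B, X⟩ hv ⟨A2, A2', B2, X2⟩ hv2 he
      rw [hT] at hv hv2
      simp only [coe_filter, Set.mem_ofPred_eq] at hv hv2
      simp only [Prod.mk.injEq] at he
      obtain ⟨e1, e2⟩ := he
      subst e1
      subst e2
      obtain ⟨-, hA, hB, h3, h4⟩ := hv
      obtain ⟨-, hA2, -, h5, h6⟩ := hv2
      have hAA : A = A2 := by
        have hB2 : B ^ 2 ≠ 0 := pow_ne_zero 2 hB
        apply mul_right_cancel₀ hB2
        linarith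
      subst hAA
      have hXX : X = X2 := by
        apply mul_left_cancel₀ hA
        linarith
      rw [hXX]
  have hsub : bx.filter (fun v => Rf v.1 v.2.1 v.2.2.1 v.2.2.2 = 0) ⊆
      R ∪ ((J.image (fun p : ℤ × ℤ => ((0, p.1, 0, p.2) : ℤ × ℤ × ℤ × ℤ))) ∪
      ((J.image (fun p : ℤ × ℤ => ((p.1, p.2, 0, 0) : ℤ × ℤ × ℤ × ℤ))) ∪
      ((J.image (fun p : ℤ × ℤ => ((0, 0, p.1, p.2) : ℤ × ℤ × ℤ × ℤ))) ∪ T))) := by
    rintro ⟨A, A', B, X⟩ hv
    rw [mem_filter] at hv
    obtain ⟨hb, hRf⟩ := hv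
    have hb' := hb
    simp only [hbx, hJ, mem_product] at hb'
    simp only [mem_union]
    rcases Rf_zero_cases A A' B X hRf with h | ⟨h3, h4⟩
    · left
      rw [hR, mem_filter]
      exact ⟨hb, h⟩
    · right
      by_cases hB : B = 0
      · rw [hB, mul_zero] at h3
        have h5 : A * X = 0 := by linarith
        rcases mul_eq_zero.1 h5 with h0 | h0
        · left
          rw [mem_image]
          refine ⟨(A', X), ?_, by rw [h0, hB]⟩
          rw [hJ, mem_product]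
          exact ⟨hb'.2.1, hb'.2.2.2⟩
        · right; left
          rw [mem_image]
          refine ⟨(A, A'), ?_, by rw [h0, hB]⟩
          rw [hJ, mem_product]
          exact ⟨hb'.1, hb'.2.1⟩
      · right; right
        have h6 : 5 * A * B ^ 2 = A' ^ 3 := by
          rcases h4 with h4 | h4
          · exact absurd h4 hB
          · exact h4
        by_cases hA : A = 0
        · left
          have hA' : A' = 0 := by
            rw [hA] at h6
            have : A' ^ 3 = 0 := by linarith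
            exact pow_eq_zero_iff (by norm_num) |>.1 this
          rw [mem_image]
          refine ⟨(B, X), ?_, by rw [hA, hA']⟩
          rw [hJ, mem_product]
          exact ⟨hb'.2.2.1, hb'.2.2.2⟩
        · right
          rw [hT, mem_filter]
          exact ⟨hb, hA, hB, h3, h6⟩
  have hfin : (bx.filter (fun v => Rf v.1 v.2.1 v.2.2.1 v.2.2.2 = 0)).card ≤
      R.card + (J.card + (J.card + (J.card + J.card))) := by
    refine le_trans (card_le_card hsub) ?_
    refine le_trans (card_union_le _ _) (add_le_add le_rfl ?_)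
    refine le_trans (card_union_le _ _) (add_le_add card_image_le ?_)
    refine le_trans (card_union_le _ _) (add_le_add card_image_le ?_)
    refine le_trans (card_union_le _ _) (add_le_add card_image_le hTJ)
  have hfin' : ((bx.filter (fun v => Rf v.1 v.2.1 v.2.2.1 v.2.2.2 = 0)).card : ℝ) ≤
      R.card + (J.card + (J.card + (J.card + J.card))) := by exact_mod_cast hfin
  have h1' : (R.card : ℝ) ≤ C * (L : ℝ) ^ 2 := by
    convert h1 using 2
  linarith

end Pool.Agent.helper3.FT
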